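import Pool.Agent.H327.UPW.Cyc

/-!
# Universal partial words: an almost linear upper bound for the diamondicity

A non-trivial universal partial word for the words of length `n` whose windows all have `d` diamonds satisfies
`d ≤ n - 1 - (n - 1) / log₂ (2 n)`. For cyclic words the diamonds have period `g = gcd (n, a ^ (n - d))`, and the
number `m` of letters in a period satisfies `g - 1 ≤ (m - 1) log₂ g`.
-/

set_option autoImplicit false

namespace Pool.Agent.Results.MP_1a637f_co.EntropyBound

open Finset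

/-- The window of `v` starting at `i` covers the word `u` of length `n`. -/
def CoversAt {a n : ℕ} (v : List (Option (Fin a))) (u : Fin n → Fin a) (i : ℕ) : Prop :=
  i + n ≤ v.length ∧ ∀ j : Fin n, v[i + j.val]? = some none ∨ v[i + j.val]? = some (some (u j))

/-- `v` is a universal partial word for the words of length `n` (`none` is the diamond). -/
def IsUniversal {a : ℕ} (n : ℕ) (v : List (Option (Fin a))) : Prop :=
  ∀ u : Fin n → Fin a, ∃! i : ℕ, CoversAt v u i

/-- `v` is non-trivial: it contains a diamond and is not the word of `n` diamonds. -/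
def IsNontrivial {a : ℕ} (n : ℕ) (v : List (Option (Fin a))) : Prop :=
  none ∈ v ∧ v ≠ List.replicate n none

/-- Every window of length `n` of `v` has exactly `d` diamonds. -/
def HasDiamondicity {a : ℕ} (n d : ℕ) (v : List (Option (Fin a))) : Prop :=
  ∀ i : ℕ, i + n ≤ v.length →
    (Finset.univ.filter fun j : Fin n => v[i + j.val]? = some none).card = d

/-- `v` is cyclic: its first and last `n - 1` characters coincide and do not overlap. -/
def IsCyclic {a : ℕ} (n : ℕ) (v : List (Option (Fin a))) : Prop :=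
  2 * (n - 1) ≤ v.length ∧ ∀ i : ℕ, i < n - 1 → v[i]? = v[v.length - (n - 1) + i]?

/-- The diamonds of `v` have period `g`. -/
def DiamondPeriod {a : ℕ} (g : ℕ) (v : List (Option (Fin a))) : Prop :=
  ∀ j : ℕ, j + g < v.length → (v[j]? = some none ↔ v[j + g]? = some none)

lemma d_lt {a n d : ℕ} (ha : 2 ≤ a) {v : List (Option (Fin a))} (hu : IsUniversal n v)
    (hn : IsNontrivial n v) (hd : HasDiamondicity n d v) : d < n := by
  obtain ⟨i, hi, -⟩ := hu fun _ => ⟨0, by omega⟩
  have hlen : n ≤ v.length := by have := hi.1; omega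
  have hle : d ≤ n := by
    rw [← hd 0 (by omega)]
    exact (card_filter_le _ _).trans (by simp)
  rcases Nat.lt_or_ge d n with h | h
  · exact h
  exfalso
  have hdn : d = n := by omega
  subst hdn
  have hall : ∀ i, i + d ≤ v.length → ∀ j : Fin d, v[i + j.val]? = some none := by
    intro i hi j
    have h1 : (univ.filter fun j : Fin d => v[i + j.val]? = some none) = univ := by
      rw [← Finset.card_eq_iff_eq_univ, hd i hi, Fintype.card_fin]
    have h2 := mem_univ j
    rw [← h1] at h2
    exact (mem_filter.1 h2).2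
  rcases Nat.lt_or_ge d v.length with h1 | h1
  · -- two windows cover everything
    obtain ⟨i', -, hi'⟩ := hu fun _ => ⟨0, by omega⟩
    have h2 := hi' 0 ⟨by omega, fun j => Or.inl (hall 0 (by omega) j)⟩
    have h3 := hi' 1 ⟨by omega, fun j => Or.inl (hall 1 (by omega) j)⟩
    omega
  · refine hn.2 (List.eq_replicate_iff.2 ⟨by omega, fun b hb => ?_⟩)
    obtain ⟨j, hj, rfl⟩ := List.mem_iff_getElem.1 hb
    have h2 := hall 0 (by omega) ⟨j, by omega⟩
    simp only [zero_add] at h2
    rw [List.getElem?_eq_getElem hj] at h2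
    exact Option.some.inj h2

lemma d_pos {a n d : ℕ} (ha : 2 ≤ a) {v : List (Option (Fin a))} (hu : IsUniversal n v)
    (hn : IsNontrivial n v) (hd : HasDiamondicity n d v) : 0 < d := by
  obtain ⟨i, hi, -⟩ := hu fun _ => ⟨0, by omega⟩
  have hlen : n ≤ v.length := by have := hi.1; omega
  have hdn := d_lt ha hu hn hd
  obtain ⟨j, hj, h1⟩ := List.mem_iff_getElem.1 hn.1
  obtain ⟨s, hs⟩ : ∃ s, s = min j (v.length - n) := ⟨_, rfl⟩
  rw [← hd s (by omega), Finset.card_pos]
  refine ⟨⟨j - s, by omega⟩, mem_filter.2 ⟨mem_univ _, ?_⟩⟩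
  have h2 : s + (j - s) = j := by omega
  simp only [h2]
  rw [List.getElem?_eq_getElem hj, h1]

/-- **Theorem.** Let `v` be a non-trivial universal partial word for the words of length `n` over an alphabet with
`a ≥ 2` letters, with well-defined diamondicity `d`. -/
theorem result {a n d : ℕ} (ha : 2 ≤ a) (v : List (Option (Fin a))) (hu : IsUniversal n v)
    (hn : IsNontrivial n v) (hd : HasDiamondicity n d v) :
    -- (1) the almost linear bound
    2 ^ (n - 1) ≤ (2 * n) ^ (n - d - 1) ∧
    (d : ℝ) ≤ n - 1 - (n - 1) / Real.logb 2 (2 * n) ∧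
    -- (2) the diamonds have period `n`; if they have a period `g` dividing `n`, and `m` is the number of letters
    -- in a period, then `⌊a ^ (n - d) / g⌋ ^ (m - 1) * 2 ^ (g - 1) ≤ (a ^ (n - d)) ^ (m - 1)`
    DiamondPeriod n v ∧
    (∀ g : ℕ, 0 < g → g ∣ n → DiamondPeriod g v → ∃ m : ℕ, m * n = (n - d) * g ∧
      (a ^ (n - d) / g) ^ (m - 1) * 2 ^ (g - 1) ≤ (a ^ (n - d)) ^ (m - 1)) ∧
    -- (3) cyclic words: `g = gcd (n, a ^ (n - d))` is a period of the diamonds, at least `4`, and the number `m` of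
    -- letters in a period is at least `3` and satisfies `2 ^ (g - 1) ≤ g ^ (m - 1)`
    (IsCyclic n v → ∃ m : ℕ, DiamondPeriod (Nat.gcd n (a ^ (n - d))) v ∧
      m * n = (n - d) * Nat.gcd n (a ^ (n - d)) ∧ 4 ≤ Nat.gcd n (a ^ (n - d)) ∧ 3 ≤ m ∧
      2 ^ (Nat.gcd n (a ^ (n - d)) - 1) ≤ Nat.gcd n (a ^ (n - d)) ^ (m - 1)) := by
  have hdn := d_lt ha hu hn hd
  have hd0 := d_pos ha hu hn hd
  have hLn : n ≤ v.length + 1 - n := Pool.Agent.H327.UPW.windows_ge ha hdn hu hd
  have hLa : v.length + 1 - n = a ^ (n - d) := Pool.Agent.H327.UPW.windows' (by omega) hu hd hdn.le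
  have hiff : ∀ g, DiamondPeriod g v ↔ ∀ j, j + g < v.length →
      (Pool.Agent.H327.UPW.isL v j ↔ Pool.Agent.H327.UPW.isL v (j + g)) := by
    intro g
    unfold DiamondPeriod Pool.Agent.H327.UPW.isL
    exact forall_congr' fun j => forall_congr' fun _ => not_iff_not.symm
  have hpn : DiamondPeriod n v := (hiff n).2 fun j hj => Pool.Agent.H327.UPW.period hd hj
  have hper : ∀ g : ℕ, 0 < g → g ∣ n → DiamondPeriod g v → ∃ m : ℕ, m * n = (n - d) * g ∧ 1 ≤ m ∧
      (a ^ (n - d) / g) ^ (m - 1) * 2 ^ (g - 1) ≤ (a ^ (n - d)) ^ (m - 1) := fun g hg0 hgn hg =>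
    Pool.Agent.H327.UPW.main_per ha hdn hu hd hg0 hgn ((hiff g).1 hg)
  have h1 : 2 ^ (n - 1) ≤ (2 * n) ^ (n - d - 1) := by
    obtain ⟨m, h2, h3, h4⟩ := hper n (by omega) dvd_rfl hpn
    have h5 : m = n - d := Nat.eq_of_mul_eq_mul_right (by omega) h2
    subst h5
    rw [hLa] at hLn
    set L := a ^ (n - d) with hL
    have h6 : 1 ≤ L / n := (Nat.one_le_div_iff (by omega)).2 hLn
    have h7 : L ≤ 2 * n * (L / n) := by
      have h8 := Nat.div_add_mod L n
      have h9 := Nat.mod_lt L (show 0 < n by omega)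
      have h10 : n ≤ n * (L / n) := Nat.le_mul_of_pos_right n h6
      have h11 : 2 * n * (L / n) = n * (L / n) + n * (L / n) := by ring
      omega
    have h8 : L ^ (n - d - 1) ≤ (2 * n) ^ (n - d - 1) * (L / n) ^ (n - d - 1) := by
      rw [← mul_pow]
      exact Nat.pow_le_pow_left h7 _
    have h9 : (L / n) ^ (n - d - 1) * 2 ^ (n - 1) ≤ (L / n) ^ (n - d - 1) * (2 * n) ^ (n - d - 1) := by
      rw [mul_comm _ ((2 * n) ^ (n - d - 1))]
      exact h4.trans h8
    exact Nat.le_of_mul_le_mul_left h9 (pow_pos (by omega) _)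
  refine ⟨h1, ?_, hpn, fun g hg0 hgn hg => ?_, fun hc => ?_⟩
  · have hn1 : (1 : ℝ) ≤ n := by exact_mod_cast (show 1 ≤ n by omega)
    have h2 : ((2 : ℝ)) ^ (n - 1) ≤ (2 * n) ^ (n - d - 1) := by exact_mod_cast h1
    have h3 := Real.logb_le_logb_of_le (b := 2) (by norm_num) (by positivity) h2
    rw [Real.logb_pow, Real.logb_pow, Real.logb_self_eq_one (by norm_num), mul_one] at h3
    have h4 : ((n - 1 : ℕ) : ℝ) = n - 1 := by push_cast [Nat.cast_sub (show 1 ≤ n by omega)]; rfl
    have h5 : ((n - d - 1 : ℕ) : ℝ) = n - d - 1 := by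
      rw [Nat.sub_sub, Nat.cast_sub (show d + 1 ≤ n by omega)]
      push_cast
      ring
    rw [h4, h5] at h3
    have h6 : 0 < Real.logb 2 (2 * n) := Real.logb_pos (by norm_num) (by linarith)
    have h7 : ((n : ℝ) - 1) / Real.logb 2 (2 * n) ≤ n - d - 1 := by
      rw [div_le_iff₀ h6]
      exact h3
    linarith
  · obtain ⟨m, h2, -, h3⟩ := hper g hg0 hgn hg
    exact ⟨m, h2, h3⟩
  · obtain ⟨g, hg⟩ : ∃ g, g = Nat.gcd n (a ^ (n - d)) := ⟨_, rfl⟩
    have hgn : g ∣ n := hg ▸ Nat.gcd_dvd_left _ _
    have hgL : g ∣ a ^ (n - d) := hg ▸ Nat.gcd_dvd_right _ _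
    have hg0 : 0 < g := Nat.pos_of_dvd_of_pos hgn (by omega)
    have hpg : DiamondPeriod g v := by
      rw [hiff, hg]
      exact fun j hj => Pool.Agent.H327.UPW.cyc_period ha hdn hu hd hc j hj
    obtain ⟨m, h2, h3, h4⟩ := hper g hg0 hgn hpg
    rw [← hg]
    obtain ⟨q, hq⟩ := hgL
    have hq0 : 0 < q := by
      rcases Nat.eq_zero_or_pos q with h | h
      · rw [h, mul_zero] at hq
        exact absurd hq (pow_pos (by omega) _).ne'
      · exact h
    have h5 : 2 ^ (g - 1) ≤ g ^ (m - 1) := by
      rw [hq, Nat.mul_div_cancel_left _ hg0, mul_pow, mul_comm (g ^ (m - 1))] at h4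
      exact Nat.le_of_mul_le_mul_left h4 (pow_pos hq0 _)
    have h6 : m < g := by
      have : m * n < g * n := by
        rw [h2, mul_comm g n]
        exact Nat.mul_lt_mul_of_pos_right (by omega) hg0
      exact Nat.lt_of_mul_lt_mul_right this
    have h7 : 4 ≤ g := by
      by_contra hlt
      push Not at hlt
      interval_cases g
      · omega
      · have : m = 1 := by omega
        subst this
        simp at h5
      · have : m = 1 ∨ m = 2 := by omega
        rcases this with rfl | rfl <;> simp at h5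
    have h8 : 3 ≤ m := by
      by_contra hlt
      push Not at hlt
      have h9 : g < 2 ^ (g - 1) := by
        obtain ⟨e, rfl⟩ := Nat.exists_eq_add_of_le h7
        clear * -
        induction e with
        | zero => simp
        | succ e ih =>
          have h10 : 4 + (e + 1) - 1 = (4 + e - 1) + 1 := by omega
          rw [h10, pow_succ]
          omega
      have : m = 1 ∨ m = 2 := by omega
      rcases this with rfl | rfl
      · simp at h5; omega
      · simp only [show 2 - 1 = 1 from rfl, pow_one] at h5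
        omega
    exact ⟨m, hpg, h2, h7, h8, h5⟩

end Pool.Agent.Results.MP_1a637f_co.EntropyBound
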